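import Mathlib

/-! Mean values of multiplicative majorants, and divisor sums of completely multiplicative
functions. -/

set_option autoImplicit false

namespace Pool.Agent.KS6_22.DS

open Finset

/-- the primes up to `x` -/
abbrev PP (x : ℕ) : Finset ℕ := (Icc 1 x).filter Nat.Prime

theorem primeFactors_subset {n x : ℕ} (hn : n ∈ Ioc 0 x) : n.primeFactors ⊆ PP x := by
  intro p hp
  rw [mem_Ioc] at hn
  have h := Nat.mem_primeFactors.1 hp
  rw [mem_filter, mem_Icc]
  exact ⟨⟨h.1.one_lt.le, (Nat.le_of_dvd hn.1 h.2.1).trans hn.2⟩, h.1⟩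

theorem card_multiples (x m : ℕ) (hm : 0 < m) :
    (((Ioc 0 x).filter (fun n => m ∣ n)).card : ℝ) ≤ x / m := by
  rw [Nat.Ioc_filter_dvd_card_eq_div]
  exact Nat.cast_div_le

/-- mean value of `∏_{p ∣ n} (1 + g p)` -/
theorem mean_le (g : ℕ → ℝ) (hg : ∀ p, 0 ≤ g p) (x : ℕ) :
    ∑ n ∈ Ioc 0 x, ∏ p ∈ n.primeFactors, (1 + g p) ≤ x * ∏ p ∈ PP x, (1 + g p / p) := by
  classical
  have h1 : ∀ n ∈ Ioc 0 x, ∏ p ∈ n.primeFactors, (1 + g p) =
      ∑ S ∈ (PP x).powerset, if S ⊆ n.primeFactors then ∏ p ∈ S, g p else 0 := by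
    intro n hn
    rw [Finset.prod_one_add, ← Finset.sum_filter]
    apply Finset.sum_congr _ (fun _ _ => rfl)
    ext S
    simp only [mem_powerset, mem_filter]
    exact ⟨fun h => ⟨h.trans (primeFactors_subset hn), h⟩, fun h => h.2⟩
  rw [Finset.sum_congr rfl h1, Finset.sum_comm, Finset.prod_one_add, Finset.mul_sum]
  apply Finset.sum_le_sum
  intro S hS
  rw [mem_powerset] at hS
  have hprime : ∀ p ∈ S, p.Prime := fun p hp => (mem_filter.1 (hS hp)).2
  have hS0 : 0 < ∏ p ∈ S, p := Finset.prod_pos fun p hp => (hprime p hp).pos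
  have hG : 0 ≤ ∏ p ∈ S, g p := Finset.prod_nonneg fun p _ => hg p
  rw [← Finset.sum_filter, Finset.sum_const, nsmul_eq_mul]
  have h2 : (((Ioc 0 x).filter (fun n => S ⊆ n.primeFactors)).card : ℝ) ≤
      x / ((∏ p ∈ S, p : ℕ) : ℝ) := by
    refine le_trans ?_ (card_multiples x _ hS0)
    exact_mod_cast Finset.card_le_card (fun n hn => by
      rw [mem_filter] at hn ⊢
      refine ⟨hn.1, ?_⟩
      exact Finset.prod_primes_dvd n (fun p hp => (hprime p hp).prime)
        (fun p hp => (Nat.mem_primeFactors.1 (hn.2 hp)).2.1))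
  calc (((Ioc 0 x).filter (fun n => S ⊆ n.primeFactors)).card : ℝ) * ∏ p ∈ S, g p
      ≤ x / ((∏ p ∈ S, p : ℕ) : ℝ) * ∏ p ∈ S, g p := mul_le_mul_of_nonneg_right h2 hG
    _ = x * ∏ p ∈ S, g p / p := by
        rw [Finset.prod_div_distrib]
        push_cast
        ring

/-- the divisor sum of a completely multiplicative function is submultiplicative -/
theorem div_mul_le (u : ℕ → ℝ) (hu0 : ∀ n, 0 ≤ u n) (hu : ∀ a b, u (a * b) = u a * u b)
    {j m : ℕ} (hj : j ≠ 0) (hm : m ≠ 0) :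
    ∑ c ∈ (j * m).divisors, u c ≤ (∑ a ∈ j.divisors, u a) * ∑ b ∈ m.divisors, u b := by
  classical
  have h : ∀ c ∈ (j * m).divisors, ∃ p : ℕ × ℕ, p ∈ j.divisors ×ˢ m.divisors ∧ p.1 * p.2 = c := by
    intro c hc
    obtain ⟨a, b, ha, hb, rfl⟩ := exists_dvd_and_dvd_of_dvd_mul (Nat.dvd_of_mem_divisors hc)
    exact ⟨(a, b), by simp [ha, hb, hj, hm], rfl⟩
  choose! P hP1 hP2 using h
  rw [Finset.sum_mul_sum, ← Finset.sum_product']
  calc ∑ c ∈ (j * m).divisors, u c = ∑ c ∈ (j * m).divisors, u (P c).1 * u (P c).2 := by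
        apply Finset.sum_congr rfl
        intro c hc
        rw [← hu, hP2 c hc]
    _ = ∑ p ∈ (j * m).divisors.image P, u p.1 * u p.2 := by
        rw [Finset.sum_image]
        intro c hc c' hc' hcc
        rw [← hP2 c hc, ← hP2 c' hc', hcc]
    _ ≤ ∑ p ∈ j.divisors ×ˢ m.divisors, u p.1 * u p.2 := by
        apply Finset.sum_le_sum_of_subset_of_nonneg
        · intro p hp
          obtain ⟨c, hc, rfl⟩ := Finset.mem_image.1 hp
          exact hP1 c hc
        · intro p _ _
          exact mul_nonneg (hu0 _) (hu0 _)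

/-- the divisor sum of a completely multiplicative function is at most the Euler product -/
theorem div_le_prod (u : ℕ → ℝ) (hu0 : ∀ n, 0 ≤ u n) (hu1 : u 1 = 1)
    (hu : ∀ a b, u (a * b) = u a * u b) (hup : ∀ p : ℕ, p.Prime → u p < 1) (n : ℕ) (hn : n ≠ 0) :
    ∑ d ∈ n.divisors, u d ≤ ∏ p ∈ n.primeFactors, (1 - u p)⁻¹ := by
  induction n using Nat.recOnPosPrimePosCoprime with
  | prime_pow p k hp hk =>
    have hpow : ∀ i : ℕ, u (p ^ i) = u p ^ i := by
      intro i
      induction i with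
      | zero => simp [hu1]
      | succ i ih => rw [pow_succ, hu, ih, pow_succ]
    rw [Nat.primeFactors_prime_pow hk.ne' hp, Finset.prod_singleton, Nat.sum_divisors_prime_pow hp]
    rw [Finset.sum_congr rfl fun i _ => hpow i]
    have h1 : 0 < 1 - u p := by linarith [hup p hp]
    rw [← tsum_geometric_of_lt_one (hu0 p) (hup p hp)]
    exact (summable_geometric_of_lt_one (hu0 p) (hup p hp)).sum_le_tsum _
      (fun i _ => pow_nonneg (hu0 p) i)
  | zero => exact absurd rfl hn
  | one => simp [hu1]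
  | coprime a b ha hb hab iha ihb =>
    have ha0 : a ≠ 0 := by omega
    have hb0 : b ≠ 0 := by omega
    rw [hab.primeFactors_mul, Finset.prod_union hab.disjoint_primeFactors]
    refine (div_mul_le u hu0 hu ha0 hb0).trans ?_
    apply mul_le_mul (iha ha0) (ihb hb0) (Finset.sum_nonneg fun _ _ => hu0 _)
    apply Finset.prod_nonneg
    intro p hp
    have := hup p (Nat.prime_of_mem_primeFactors hp)
    exact (inv_pos.2 (by linarith)).le

end Pool.Agent.KS6_22.DS
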