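import Mathlib
import Pool.Agent.KS6_22.DS.Mean
import Pool.Graph.R_seed8.Y731.DS.Moments

/-! The exponential weights. -/

set_option autoImplicit false

namespace Pool.Agent.KS6_22.DS

open Finset Pool.Agent.Y731.DS

/-- `∑_{p ∣ n, p > z} 1 / p` -/
noncomputable def tailSum (z n : ℕ) : ℝ := ∑ p ∈ n.primeFactors.filter (fun p => z < p), 1 / (p : ℝ)

/-- `∑_{d ∣ n} 1 / d` -/
noncomputable def hh (n : ℕ) : ℝ := ∑ d ∈ n.divisors, 1 / (d : ℝ)

/-- Mertens' product -/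
noncomputable def MM (z : ℕ) : ℝ := ∏ p ∈ PP z, (1 - (p : ℝ)⁻¹)⁻¹

/-- the exponent at the prime `p` -/
noncomputable def ee (z p : ℕ) : ℝ := if z < p then (z : ℝ) / p else 0

/-- the weight at the prime `p` -/
noncomputable def GG (z p : ℕ) : ℝ :=
  if p.Prime then ((1 - 1 / √(p : ℝ))⁻¹) ^ 2 * Real.exp (ee z p) - 1 else 0

theorem ee_nonneg (z p : ℕ) : 0 ≤ ee z p := by
  unfold ee
  split_ifs <;> positivity

theorem ee_le_one (z p : ℕ) : ee z p ≤ 1 := by
  unfold ee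
  split_ifs with h
  · have h0 : (0 : ℝ) < p := by
      have : 0 < p := by omega
      exact_mod_cast this
    rw [div_le_one h0]
    exact_mod_cast h.le
  · exact zero_le_one

theorem sqrt_inv_bound {p : ℕ} (hp : 2 ≤ p) : 0 ≤ 1 / √(p : ℝ) ∧ 1 / √(p : ℝ) ≤ 71 / 100 := by
  have h2 : (2 : ℝ) ≤ p := by exact_mod_cast hp
  refine ⟨by positivity, ?_⟩
  have h1 : (100 / 71 : ℝ) ≤ √(p : ℝ) := by
    apply Real.le_sqrt_of_sq_le
    norm_num
    linarith
  rw [div_le_iff₀ (by linarith)]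
  nlinarith

theorem GG_nonneg (z p : ℕ) : 0 ≤ GG z p := by
  unfold GG
  split_ifs with h
  · obtain ⟨h1, h2⟩ := sqrt_inv_bound h.two_le
    have h3 : 1 ≤ (1 - 1 / √(p : ℝ))⁻¹ := (one_le_inv₀ (by linarith)).2 (by linarith)
    have h4 : 1 ≤ ((1 - 1 / √(p : ℝ))⁻¹) ^ 2 := one_le_pow₀ h3
    have h5 : 1 ≤ Real.exp (ee z p) := Real.one_le_exp (ee_nonneg z p)
    nlinarith
  · exact le_rfl

theorem GG_le {z p : ℕ} (hp : p.Prime) : GG z p ≤ 72 * (1 / √(p : ℝ)) + 2 * ee z p := by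
  unfold GG
  rw [if_pos hp]
  obtain ⟨h1, h2⟩ := sqrt_inv_bound hp.two_le
  have h3 := ee_nonneg z p
  have h4 := ee_le_one z p
  generalize 1 / √(p : ℝ) = u at h1 h2 ⊢
  generalize ee z p = t at h3 h4 ⊢
  have h5 : Real.exp t ≤ 1 + 2 * t := by
    have h6 := Real.abs_exp_sub_one_sub_id_le (x := t) (by rw [abs_of_nonneg h3]; exact h4)
    have h7 := (abs_le.1 h6).2
    nlinarith
  have h6 : ((1 - u)⁻¹) ^ 2 ≤ 1 + 24 * u := by
    have h7 : 0 < (1 - u) ^ 2 := by
      have : 0 < 1 - u := by linarith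
      positivity
    rw [inv_pow, inv_le_iff_one_le_mul₀ h7]
    nlinarith [mul_nonneg h1 (sub_nonneg.2 h2), mul_nonneg h1 (mul_nonneg h1 (sub_nonneg.2 h2))]
  have h8 : 0 ≤ Real.exp t := (Real.exp_pos t).le
  calc ((1 - u)⁻¹) ^ 2 * Real.exp t - 1 ≤ (1 + 24 * u) * (1 + 2 * t) - 1 := by
        have := mul_le_mul h6 h5 h8 (by linarith)
        linarith
    _ ≤ 72 * u + 2 * t := by nlinarith [mul_nonneg h1 (sub_nonneg.2 h4)]

theorem sum_GG_le (z x : ℕ) (hz : 1 ≤ z) : ∑ p ∈ PP x, GG z p / p ≤ 72 * W + 2 := by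
  have h1 : ∀ p ∈ PP x, GG z p / p ≤ 72 * w p + 2 * (ee z p / p) := by
    intro p hp
    have hp' := (mem_filter.1 hp).2
    have hp0 : (0 : ℝ) < p := by exact_mod_cast hp'.pos
    have h2 := GG_le (z := z) hp'
    unfold w
    rw [div_le_iff₀ hp0]
    have h3 : (72 * (1 / ((p : ℝ) * √(p : ℝ))) + 2 * (ee z p / p)) * p =
        72 * (1 / √(p : ℝ)) + 2 * ee z p := by
      have hs : √(p : ℝ) ≠ 0 := (Real.sqrt_pos.2 hp0).ne'
      field_simp
    rw [h3]
    exact h2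
  refine (Finset.sum_le_sum h1).trans ?_
  rw [Finset.sum_add_distrib, ← Finset.mul_sum, ← Finset.mul_sum]
  have h2 : ∑ p ∈ PP x, ee z p / p ≤ 1 := by
    have h3 : ∀ p ∈ PP x, ee z p / p = if z < p then (z : ℝ) * ((p : ℝ) ^ 2)⁻¹ else 0 := by
      intro p hp
      unfold ee
      split_ifs
      · rw [div_div, div_eq_mul_inv, sq]
      · simp
    rw [Finset.sum_congr rfl h3, ← Finset.sum_filter, ← Finset.mul_sum]
    have hz0 : (0 : ℝ) < z := by exact_mod_cast hz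
    by_cases hzx : z ≤ x
    · have h4 : ∑ p ∈ (PP x).filter (fun p => z < p), ((p : ℝ) ^ 2)⁻¹ ≤
          ∑ p ∈ Ioc z x, ((p : ℝ) ^ 2)⁻¹ := by
        apply Finset.sum_le_sum_of_subset_of_nonneg
        · intro p hp
          rw [mem_filter, mem_filter, mem_Icc] at hp
          rw [mem_Ioc]
          exact ⟨hp.2, hp.1.1.2⟩
        · intro p _ _
          positivity
      have h5 := sum_Ioc_inv_sq_le_sub (α := ℝ) (k := z) (n := x) (by omega) hzx
      have h6 : ∑ p ∈ (PP x).filter (fun p => z < p), ((p : ℝ) ^ 2)⁻¹ ≤ (z : ℝ)⁻¹ := by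
        refine h4.trans (h5.trans ?_)
        have : (0 : ℝ) ≤ (x : ℝ)⁻¹ := by positivity
        linarith
      calc (z : ℝ) * ∑ p ∈ (PP x).filter (fun p => z < p), ((p : ℝ) ^ 2)⁻¹ ≤ z * (z : ℝ)⁻¹ :=
            mul_le_mul_of_nonneg_left h6 hz0.le
        _ = 1 := mul_inv_cancel₀ hz0.ne'
    · have h4 : (PP x).filter (fun p => z < p) = ∅ := by
        rw [Finset.filter_eq_empty_iff]
        intro p hp
        have := (mem_Icc.1 (mem_filter.1 hp).1).2
        omega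
      rw [h4, Finset.sum_empty, mul_zero]
      exact zero_le_one
  have h3 := sum_w_le (PP x)
  linarith

theorem prod_GG_le (z x : ℕ) (hz : 1 ≤ z) :
    ∏ p ∈ PP x, (1 + GG z p / p) ≤ Real.exp (72 * W + 2) := by
  calc ∏ p ∈ PP x, (1 + GG z p / p) ≤ ∏ p ∈ PP x, Real.exp (GG z p / p) := by
        apply Finset.prod_le_prod
        · intro p _
          have : 0 ≤ GG z p / p := div_nonneg (GG_nonneg z p) (Nat.cast_nonneg p)
          linarith
        · intro p _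
          have := Real.add_one_le_exp (GG z p / p)
          linarith
    _ = Real.exp (∑ p ∈ PP x, GG z p / p) := (Real.exp_sum _ _).symm
    _ ≤ _ := Real.exp_le_exp.2 (sum_GG_le z x hz)

theorem g_le_prod (n : ℕ) (hn : n ≠ 0) : g n ≤ ∏ p ∈ n.primeFactors, (1 - 1 / √(p : ℝ))⁻¹ := by
  unfold g
  apply div_le_prod (fun j => 1 / √(j : ℝ)) (fun n => by positivity) (by simp) _ _ n hn
  · intro a b
    rw [Nat.cast_mul, Real.sqrt_mul (Nat.cast_nonneg a)]
    rw [one_div_mul_one_div]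
  · intro p hp
    have := (sqrt_inv_bound hp.two_le).2
    linarith

theorem exp_tailSum (z n : ℕ) :
    Real.exp (z * tailSum z n) = ∏ p ∈ n.primeFactors, Real.exp (ee z p) := by
  rw [← Real.exp_sum]
  congr 1
  unfold tailSum ee
  rw [← Finset.sum_filter, Finset.mul_sum]
  apply Finset.sum_congr rfl
  intro p _
  ring

theorem weight_le (z n : ℕ) (hn : n ≠ 0) :
    g n ^ 2 * Real.exp (z * tailSum z n) ≤ ∏ p ∈ n.primeFactors, (1 + GG z p) := by
  have h1 := g_le_prod n hn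
  have h2 : g n ^ 2 ≤ ∏ p ∈ n.primeFactors, ((1 - 1 / √(p : ℝ))⁻¹) ^ 2 := by
    rw [Finset.prod_pow]
    exact pow_le_pow_left₀ (g_nonneg n) h1 2
  rw [exp_tailSum]
  calc g n ^ 2 * ∏ p ∈ n.primeFactors, Real.exp (ee z p)
      ≤ (∏ p ∈ n.primeFactors, ((1 - 1 / √(p : ℝ))⁻¹) ^ 2) *
        ∏ p ∈ n.primeFactors, Real.exp (ee z p) := by
        apply mul_le_mul_of_nonneg_right h2
        exact Finset.prod_nonneg fun _ _ => (Real.exp_pos _).le
    _ = ∏ p ∈ n.primeFactors, (1 + GG z p) := by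
        rw [← Finset.prod_mul_distrib]
        apply Finset.prod_congr rfl
        intro p hp
        unfold GG
        rw [if_pos (Nat.prime_of_mem_primeFactors hp)]
        ring

/-- the main mean value estimate -/
theorem sum_sq_le (z x : ℕ) (hz : 1 ≤ z) (θ : ℝ) (S : Finset ℕ) (hS : S ⊆ Ioc 0 x)
    (hθ : ∀ n ∈ S, θ ≤ tailSum z n) :
    ∑ n ∈ S, g n ^ 2 ≤ Real.exp (72 * W + 2) * x * Real.exp (-(θ * z)) := by
  have hz0 : (0 : ℝ) ≤ z := Nat.cast_nonneg z
  have h1 : ∀ n ∈ S, g n ^ 2 ≤ (g n ^ 2 * Real.exp (z * tailSum z n)) * Real.exp (-(θ * z)) := by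
    intro n hn
    rw [mul_assoc, ← Real.exp_add]
    have h2 : 1 ≤ Real.exp (z * tailSum z n + -(θ * z)) := by
      apply Real.one_le_exp
      have := mul_le_mul_of_nonneg_left (hθ n hn) hz0
      linarith
    have h3 : 0 ≤ g n ^ 2 := by positivity
    nlinarith
  calc ∑ n ∈ S, g n ^ 2 ≤ ∑ n ∈ S, (g n ^ 2 * Real.exp (z * tailSum z n)) *
        Real.exp (-(θ * z)) := Finset.sum_le_sum h1
    _ ≤ ∑ n ∈ Ioc 0 x, (g n ^ 2 * Real.exp (z * tailSum z n)) * Real.exp (-(θ * z)) := by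
        apply Finset.sum_le_sum_of_subset_of_nonneg hS
        intro n _ _
        positivity
    _ = (∑ n ∈ Ioc 0 x, g n ^ 2 * Real.exp (z * tailSum z n)) * Real.exp (-(θ * z)) := by
        rw [Finset.sum_mul]
    _ ≤ (∑ n ∈ Ioc 0 x, ∏ p ∈ n.primeFactors, (1 + GG z p)) * Real.exp (-(θ * z)) := by
        apply mul_le_mul_of_nonneg_right _ (Real.exp_pos _).le
        apply Finset.sum_le_sum
        intro n hn
        exact weight_le z n (by have := (mem_Ioc.1 hn).1; omega)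
    _ ≤ (x * Real.exp (72 * W + 2)) * Real.exp (-(θ * z)) := by
        apply mul_le_mul_of_nonneg_right _ (Real.exp_pos _).le
        refine (mean_le (GG z) (GG_nonneg z) x).trans ?_
        exact mul_le_mul_of_nonneg_left (prod_GG_le z x hz) (Nat.cast_nonneg x)
    _ = _ := by ring

theorem inv_one_sub_le {u : ℝ} (h0 : 0 ≤ u) (h1 : u ≤ 1 / 2) : (1 - u)⁻¹ ≤ Real.exp (2 * u) := by
  have h2 := Real.add_one_le_exp (2 * u)
  rw [inv_le_iff_one_le_mul₀ (by linarith)]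
  nlinarith [Real.exp_pos (2 * u)]

/-- `∑_{d ∣ n} 1 / d ≤ M(z) exp (2 ∑_{p ∣ n, p > z} 1 / p)` -/
theorem hh_le (z n : ℕ) (hn : n ≠ 0) : hh n ≤ MM z * Real.exp (2 * tailSum z n) := by
  have h1 : hh n ≤ ∏ p ∈ n.primeFactors, (1 - 1 / (p : ℝ))⁻¹ := by
    unfold hh
    apply div_le_prod (fun j => 1 / (j : ℝ)) (fun n => by positivity) (by simp) _ _ n hn
    · intro a b
      rw [Nat.cast_mul, one_div_mul_one_div]
    · intro p hp
      have h2 : (1 : ℝ) < p := by exact_mod_cast hp.one_lt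
      rw [div_lt_one (by linarith)]
      exact h2
  have hinv : ∀ p : ℕ, p.Prime → 1 ≤ (1 - 1 / (p : ℝ))⁻¹ ∧
      (1 - 1 / (p : ℝ))⁻¹ ≤ Real.exp (2 * (1 / (p : ℝ))) := by
    intro p hp
    have h2 : (2 : ℝ) ≤ p := by exact_mod_cast hp.two_le
    have h3 : 1 / (p : ℝ) ≤ 1 / 2 := one_div_le_one_div_of_le (by norm_num) h2
    have h4 : 0 ≤ 1 / (p : ℝ) := by positivity
    exact ⟨(one_le_inv₀ (by linarith)).2 (by linarith), inv_one_sub_le h4 h3⟩
  refine h1.trans ?_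
  rw [← Finset.prod_filter_mul_prod_filter_not n.primeFactors (fun p => z < p), mul_comm]
  have hA : ∏ p ∈ n.primeFactors.filter (fun p => ¬ z < p), (1 - 1 / (p : ℝ))⁻¹ ≤ MM z := by
    unfold MM
    have h5 : ∀ p : ℕ, (1 - 1 / (p : ℝ))⁻¹ = (1 - (p : ℝ)⁻¹)⁻¹ := fun p => by rw [one_div]
    simp only [h5]
    have hsub : n.primeFactors.filter (fun p => ¬ z < p) ⊆ PP z := by
      intro p hp
      rw [mem_filter] at hp
      have := Nat.prime_of_mem_primeFactors hp.1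
      rw [mem_filter, mem_Icc]
      exact ⟨⟨this.one_lt.le, by omega⟩, this⟩
    rw [← Finset.prod_sdiff hsub]
    have hge : ∀ p ∈ PP z, (1 : ℝ) ≤ (1 - (p : ℝ)⁻¹)⁻¹ := by
      intro p hp
      have := (hinv p (mem_filter.1 hp).2).1
      rwa [h5] at this
    have h6 : 1 ≤ ∏ p ∈ PP z \ n.primeFactors.filter (fun p => ¬ z < p), (1 - (p : ℝ)⁻¹)⁻¹ := by
      calc (1 : ℝ) = ∏ p ∈ PP z \ n.primeFactors.filter (fun p => ¬ z < p), (1 : ℝ) := by simp
        _ ≤ _ := Finset.prod_le_prod (fun _ _ => zero_le_one)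
          (fun p hp => hge p (mem_sdiff.1 hp).1)
    have h7 : 0 ≤ ∏ p ∈ n.primeFactors.filter (fun p => ¬ z < p), (1 - (p : ℝ)⁻¹)⁻¹ :=
      Finset.prod_nonneg fun p hp => by
        have := hge p (hsub hp)
        linarith
    exact le_mul_of_one_le_left h7 h6
  have hB : ∏ p ∈ n.primeFactors.filter (fun p => z < p), (1 - 1 / (p : ℝ))⁻¹ ≤
      Real.exp (2 * tailSum z n) := by
    unfold tailSum
    rw [Finset.mul_sum, Real.exp_sum]
    apply Finset.prod_le_prod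
    · intro p hp
      have := (hinv p (Nat.prime_of_mem_primeFactors (mem_filter.1 hp).1)).1
      linarith
    · intro p hp
      exact (hinv p (Nat.prime_of_mem_primeFactors (mem_filter.1 hp).1)).2
  apply mul_le_mul hA hB
  · apply Finset.prod_nonneg
    intro p hp
    have := (hinv p (Nat.prime_of_mem_primeFactors (mem_filter.1 hp).1)).1
    linarith
  · unfold MM
    apply Finset.prod_nonneg
    intro p hp
    have := (hinv p (mem_filter.1 hp).2).1
    rw [one_div] at this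
    linarith

end Pool.Agent.KS6_22.DS
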