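import Mathlib
import Pool.Agent.KS6_22.DS.Weight
import Pool.Graph.R_seed8.H305R2.MertensE

/-! The number of the initial divisor sums `N ≤ x` with `N ≥ A n`. -/

set_option autoImplicit false

namespace Pool.Agent.KS6_22.DS

open Finset Filter Topology Pool.Agent.Y731.DS

theorem sum_divisors_eq (n : ℕ) : ∑ e ∈ n.divisors, (e : ℝ) = n * hh n := by
  unfold hh
  rw [Finset.mul_sum, ← Nat.sum_div_divisors n (fun e => (e : ℝ))]
  apply Finset.sum_congr rfl
  intro e he
  have h1 := Nat.dvd_of_mem_divisors he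
  have h2 : (e : ℝ) ≠ 0 := by
    have := Nat.pos_of_mem_divisors he
    exact_mod_cast this.ne'
  rw [Nat.cast_div h1 h2]
  ring

/-- the injection into pairs -/
theorem card_le (A : ℝ) (hA : 1 ≤ A) (F : ℕ → ℕ → ℕ)
    (hF : ∀ m d, F m d ≤ ∑ e ∈ m.divisors with e ≤ d, e) (x : ℕ) (S : Finset ℕ) (m d : ℕ → ℕ)
    (hS : ∀ N ∈ S, 0 < N ∧ N ≤ x ∧ d N ∈ (m N).divisors ∧ N = F (m N) (d N) ∧
      A * (m N : ℝ) ≤ N) :
    (S.card : ℝ) ≤ ∑ n ∈ (Ioc 0 x).filter (fun n => A ≤ hh n), g n ^ 2 := by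
  classical
  set T := (Ioc 0 x).filter (fun n => A ≤ hh n) with hT
  have hsub : S ⊆ T.biUnion (fun n => (Icc 1 ⌊g n ^ 2⌋₊).image (fun k => F n (n / k))) := by
    intro N hN
    obtain ⟨hN0, hNx, hd, hNF, hAN⟩ := hS N hN
    obtain ⟨hdvd, hm0⟩ := Nat.mem_divisors.1 hd
    have hmpos : 0 < m N := Nat.pos_of_ne_zero hm0
    have hmR : (0 : ℝ) < m N := by exact_mod_cast hmpos
    have hdpos : 0 < d N := Nat.pos_of_mem_divisors hd
    have hNle : (N : ℝ) ≤ ∑ e ∈ (m N).divisors with e ≤ d N, (e : ℝ) := by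
      have h1 := hF (m N) (d N)
      rw [← hNF] at h1
      have h2 := (Nat.cast_le (α := ℝ)).2 h1
      push_cast at h2
      exact h2
    have hmN : (m N : ℝ) ≤ N := by nlinarith
    rw [mem_biUnion]
    refine ⟨m N, ?_, ?_⟩
    · rw [hT, mem_filter, mem_Ioc]
      refine ⟨⟨hmpos, ?_⟩, ?_⟩
      · have : (m N : ℝ) ≤ x := hmN.trans (by exact_mod_cast hNx)
        exact_mod_cast this
      · have h2 : ∑ e ∈ (m N).divisors with e ≤ d N, (e : ℝ) ≤ ∑ e ∈ (m N).divisors, (e : ℝ) :=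
          Finset.sum_le_sum_of_subset_of_nonneg (Finset.filter_subset _ _)
            (fun _ _ _ => Nat.cast_nonneg _)
        rw [sum_divisors_eq] at h2
        have h3 : A * (m N : ℝ) ≤ m N * hh (m N) := hAN.trans (hNle.trans h2)
        have h4 : (m N : ℝ) * A ≤ m N * hh (m N) := by linarith
        exact le_of_mul_le_mul_left h4 hmR
    · rw [mem_image]
      refine ⟨m N / d N, ?_, ?_⟩
      · rw [mem_Icc]
        refine ⟨Nat.div_pos (Nat.le_of_dvd hmpos hdvd) hdpos, ?_⟩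
        apply Nat.le_floor
        have hk : (0 : ℝ) < ((m N / d N : ℕ) : ℝ) := by
          exact_mod_cast Nat.div_pos (Nat.le_of_dvd hmpos hdvd) hdpos
        have h1 := ratio_le hd hNle
        have h2 : 1 ≤ (N : ℝ) / m N := by
          rw [le_div_iff₀ hmR, one_mul]
          exact hmN
        have hs : 0 < √((m N / d N : ℕ) : ℝ) := Real.sqrt_pos.2 hk
        have h3 : 1 ≤ g (m N) * (1 / √((m N / d N : ℕ) : ℝ)) := h2.trans h1
        rw [mul_one_div, le_div_iff₀ hs, one_mul] at h3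
        have h4 := pow_le_pow_left₀ hs.le h3 2
        rwa [Real.sq_sqrt hk.le] at h4
      · show F (m N) (m N / (m N / d N)) = N
        rw [Nat.div_div_self hdvd hm0]
        exact hNF.symm
  have h1 : (S.card : ℝ) ≤ ∑ n ∈ T, (⌊g n ^ 2⌋₊ : ℝ) := by
    have h2 : S.card ≤ ∑ n ∈ T, ⌊g n ^ 2⌋₊ := by
      refine (Finset.card_le_card hsub).trans (Finset.card_biUnion_le.trans ?_)
      apply Finset.sum_le_sum
      intro n _
      refine Finset.card_image_le.trans ?_
      rw [Nat.card_Icc]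
      omega
    exact_mod_cast h2
  refine h1.trans (Finset.sum_le_sum fun n _ => ?_)
  exact Nat.floor_le (by positivity)

/-- Mertens: `M(z) ≤ (e ^ γ + η) log z` for large `z` -/
theorem MM_le {b : ℝ} (hb : Real.exp Real.eulerMascheroniConstant < b) :
    ∀ᶠ z : ℕ in atTop, MM z ≤ b * Real.log z := by
  have h1 := Pool.Agent.H305R2.mertens_three
  have h2 := h1.eventually (gt_mem_nhds hb)
  filter_upwards [h2, eventually_ge_atTop 2] with z hz hz2
  have h3 : 0 < Real.log z := Real.log_pos (by exact_mod_cast (by omega : 1 < z))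
  rw [div_lt_iff₀ h3] at hz
  exact hz.le

/-- the uniform double exponential bound, for large `A` -/
theorem tail_large {c : ℝ} (hc0 : 0 < c) (hc : c < Real.exp (-Real.eulerMascheroniConstant)) :
    ∃ (A₀ K : ℝ), 1 ≤ A₀ ∧ 0 ≤ K ∧ ∀ A : ℝ, A₀ ≤ A → ∀ (F : ℕ → ℕ → ℕ)
      (_ : ∀ m d, F m d ≤ ∑ e ∈ m.divisors with e ≤ d, e) (x : ℕ) (S : Finset ℕ) (m d : ℕ → ℕ)
      (_ : ∀ N ∈ S, 0 < N ∧ N ≤ x ∧ d N ∈ (m N).divisors ∧ N = F (m N) (d N) ∧
      A * (m N : ℝ) ≤ N), (S.card : ℝ) ≤ K * x * Real.exp (-Real.exp (c * A)) := by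
  set G : ℝ := Real.exp Real.eulerMascheroniConstant with hG
  have hG0 : 0 < G := Real.exp_pos _
  have hcG : c * G < 1 := by
    have h1 : Real.exp (-Real.eulerMascheroniConstant) * G = 1 := by
      rw [hG, ← Real.exp_add, neg_add_cancel, Real.exp_zero]
    calc c * G < Real.exp (-Real.eulerMascheroniConstant) * G := mul_lt_mul_of_pos_right hc hG0
      _ = 1 := h1
  -- `c < c₁` and `b > G` with `b c₁ < 1`
  obtain ⟨c₁, hc1, hc1G⟩ : ∃ c₁ : ℝ, c < c₁ ∧ c₁ * G < 1 := by
    refine ⟨(c + 1 / G) / 2, ?_, ?_⟩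
    · have : c < 1 / G := by rwa [lt_div_iff₀ hG0]
      linarith
    · have h2 : (c + 1 / G) / 2 * G = (c * G + 1) / 2 := by
        field_simp
      rw [h2]
      linarith
  have hc10 : 0 < c₁ := hc0.trans hc1
  obtain ⟨b, hb, hbc⟩ : ∃ b : ℝ, G < b ∧ b * c₁ < 1 := by
    refine ⟨(G + 1 / c₁) / 2, ?_, ?_⟩
    · have : G < 1 / c₁ := by
        rw [lt_div_iff₀ hc10]
        linarith
      linarith
    · have h2 : (G + 1 / c₁) / 2 * c₁ = (c₁ * G + 1) / 2 := by
        field_simp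
      rw [h2]
      linarith
  have hb0 : 0 < b := hG0.trans hb
  set θ : ℝ := -Real.log (b * c₁) / 2 with hθ
  have hθ0 : 0 < θ := by
    have : Real.log (b * c₁) < 0 := Real.log_neg (by positivity) hbc
    rw [hθ]
    linarith
  obtain ⟨z₀, hz₀⟩ := eventually_atTop.1 (MM_le hb)
  -- the threshold for `A`
  have hlim : Tendsto (fun A : ℝ => θ * Real.exp (c₁ * A) - θ - Real.exp (c * A)) atTop atTop := by
    have h1 : Tendsto (fun A : ℝ => Real.exp (c * A) *
        (θ * Real.exp ((c₁ - c) * A) - 1) + -θ) atTop atTop := by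
      apply Tendsto.atTop_add _ tendsto_const_nhds
      apply Tendsto.atTop_mul_atTop₀
      · exact Real.tendsto_exp_atTop.comp (tendsto_id.const_mul_atTop hc0)
      · apply tendsto_atTop_add_const_right
        apply Tendsto.const_mul_atTop hθ0
        exact Real.tendsto_exp_atTop.comp (tendsto_id.const_mul_atTop (by linarith))
    refine h1.congr fun A => ?_
    have h2 : Real.exp (c * A) * Real.exp ((c₁ - c) * A) = Real.exp (c₁ * A) := by
      rw [← Real.exp_add]
      congr 1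
      ring
    linear_combination θ * h2
  have hz : Tendsto (fun A : ℝ => Real.exp (c₁ * A)) atTop atTop :=
    Real.tendsto_exp_atTop.comp (tendsto_id.const_mul_atTop hc10)
  obtain ⟨A₀, hA₀⟩ := eventually_atTop.1 ((hlim.eventually_ge_atTop 0).and
    ((hz.eventually_ge_atTop ((z₀ : ℝ) + 2)).and (eventually_ge_atTop (1 : ℝ))))
  refine ⟨max A₀ 1, Real.exp (72 * W + 2), le_max_right _ _, (Real.exp_pos _).le, ?_⟩
  intro A hA F hF x S m d hS
  obtain ⟨h1, h2, h3⟩ := hA₀ A ((le_max_left _ _).trans hA)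
  set z : ℕ := ⌊Real.exp (c₁ * A)⌋₊ with hzdef
  have hzle : (z : ℝ) ≤ Real.exp (c₁ * A) := Nat.floor_le (Real.exp_pos _).le
  have hzge : Real.exp (c₁ * A) - 1 ≤ z := by
    have := Nat.lt_floor_add_one (Real.exp (c₁ * A))
    linarith
  have hzz : z₀ ≤ z ∧ 1 ≤ z := by
    have h4 : (z₀ : ℝ) + 1 ≤ z := by linarith
    have h5 : z₀ + 1 ≤ z := by exact_mod_cast h4
    omega
  have hz1 : (1 : ℝ) ≤ z := by exact_mod_cast hzz.2
  have hlogz : Real.log z ≤ c₁ * A := by
    rw [← Real.log_exp (c₁ * A)]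
    exact Real.log_le_log (by linarith) hzle
  have hM : MM z ≤ b * c₁ * A := by
    refine (hz₀ z hzz.1).trans ?_
    calc b * Real.log z ≤ b * (c₁ * A) := mul_le_mul_of_nonneg_left hlogz hb0.le
      _ = _ := by ring
  have hA0 : 0 < A := by linarith
  refine (card_le A h3 F hF x S m d hS).trans ?_
  refine (sum_sq_le z x hzz.2 θ _ (Finset.filter_subset _ _) ?_).trans ?_
  · intro n hn
    rw [mem_filter, mem_Ioc] at hn
    have h4 := hh_le z n (by omega)
    have h5 : A ≤ b * c₁ * A * Real.exp (2 * tailSum z n) :=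
      hn.2.trans (h4.trans (mul_le_mul_of_nonneg_right hM (Real.exp_pos _).le))
    have h6 : 1 ≤ b * c₁ * Real.exp (2 * tailSum z n) := by
      have h7 : A * 1 ≤ A * (b * c₁ * Real.exp (2 * tailSum z n)) := by linarith
      exact le_of_mul_le_mul_left h7 hA0
    have h7 : 0 ≤ Real.log (b * c₁ * Real.exp (2 * tailSum z n)) := Real.log_nonneg h6
    rw [Real.log_mul (by positivity) (Real.exp_pos _).ne', Real.log_exp] at h7
    rw [hθ]
    linarith
  · apply mul_le_mul_of_nonneg_left _ (by positivity)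
    apply Real.exp_le_exp.2
    have h8 : θ * (Real.exp (c₁ * A) - 1) ≤ θ * z := mul_le_mul_of_nonneg_left hzge hθ0.le
    linarith

end Pool.Agent.KS6_22.DS
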