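import Mathlib
import Pool.Agent.KS6_22.DS.Count

/-! Numbers with a large sum of divisors, with Mertens' constant. -/

set_option autoImplicit false

namespace Pool.Agent.KS6_22.DS

open Finset Filter Topology

theorem geom_ratio (p k : ℕ) (hp : p.Prime) :
    (1 - (p : ℝ)⁻¹ ^ (k + 1)) * (1 - (p : ℝ)⁻¹)⁻¹ * (p : ℝ) ^ k =
      ((∑ i ∈ range (k + 1), p ^ i : ℕ) : ℝ) := by
  have h1 : (1 : ℝ) < p := by exact_mod_cast hp.one_lt
  have h0 : (p : ℝ) ≠ 0 := by positivity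
  have h2 : (p : ℝ) - 1 ≠ 0 := by linarith
  have h3 : 1 - (p : ℝ)⁻¹ ≠ 0 := by
    have := inv_lt_one_of_one_lt₀ h1
    linarith
  push_cast
  rw [geom_sum_eq h1.ne']
  have h4 : (1 - (p : ℝ)⁻¹)⁻¹ = p / (p - 1) := by
    rw [inv_eq_one_div, div_eq_div_iff h3 h2]
    field_simp
  rw [h4]
  have h5 : (1 - (p : ℝ)⁻¹ ^ (k + 1)) * p ^ (k + 1) = p ^ (k + 1) - 1 := by
    rw [sub_mul, ← mul_pow, inv_mul_cancel₀ h0, one_pow, one_mul]
  calc (1 - (p : ℝ)⁻¹ ^ (k + 1)) * (p / (p - 1)) * (p : ℝ) ^ k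
      = ((1 - (p : ℝ)⁻¹ ^ (k + 1)) * p ^ (k + 1)) / (p - 1) := by ring
    _ = _ := by rw [h5]

/-- the sum of the divisors of the `k`-th power of a primorial -/
theorem sigma_primorial_pow (y k : ℕ) (hk : 1 ≤ k) :
    ((∑ e ∈ ((∏ p ∈ PP y, p) ^ k).divisors, e : ℕ) : ℝ) =
      (((∏ p ∈ PP y, p) ^ k : ℕ) : ℝ) * ((∏ p ∈ PP y, (1 - (p : ℝ)⁻¹ ^ (k + 1))) * MM y) := by
  have hpr : ∀ p ∈ PP y, p.Prime := fun p hp => (mem_filter.1 hp).2
  have h1 : ∑ e ∈ ((∏ p ∈ PP y, p) ^ k).divisors, e =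
      ArithmeticFunction.sigma 1 (∏ p ∈ PP y, p ^ k) := by
    rw [ArithmeticFunction.sigma_one_apply, Finset.prod_pow]
  have h2 : ArithmeticFunction.sigma 1 (∏ p ∈ PP y, p ^ k) =
      ∏ p ∈ PP y, ArithmeticFunction.sigma 1 (p ^ k) := by
    apply ArithmeticFunction.isMultiplicative_sigma.map_prod
    intro p hp q hq hpq
    exact Nat.coprime_pow_primes _ _ (hpr p hp) (hpr q hq) hpq
  rw [h1, h2]
  unfold MM
  push_cast
  rw [← Finset.prod_mul_distrib, ← Finset.prod_pow, ← Finset.prod_mul_distrib]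
  apply Finset.prod_congr rfl
  intro p hp
  rw [ArithmeticFunction.sigma_one_apply_prime_pow (hpr p hp)]
  rw [← geom_ratio p k (hpr p hp)]
  ring

theorem one_sub_sum_le {S : Finset ℕ} {a : ℕ → ℝ} (h : ∀ p ∈ S, 0 ≤ a p ∧ a p ≤ 1) :
    1 - ∑ p ∈ S, a p ≤ ∏ p ∈ S, (1 - a p) ∧ ∏ p ∈ S, (1 - a p) ≤ 1 ∧
      0 ≤ ∏ p ∈ S, (1 - a p) := by
  classical
  induction S using Finset.induction_on with
  | empty => simp
  | insert q S hq ih =>
    obtain ⟨h1, h2, h3⟩ := ih fun p hp => h p (mem_insert_of_mem hp)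
    obtain ⟨h4, h5⟩ := h q (mem_insert_self _ _)
    rw [Finset.sum_insert hq, Finset.prod_insert hq]
    refine ⟨by nlinarith, by nlinarith, mul_nonneg (by linarith) h3⟩

theorem prod_ge (y k : ℕ) (hk : 1 ≤ k) :
    1 - 2 * (1 / 2 : ℝ) ^ k ≤ ∏ p ∈ PP y, (1 - (p : ℝ)⁻¹ ^ (k + 1)) := by
  have hp01 : ∀ p ∈ PP y, 0 ≤ (p : ℝ)⁻¹ ^ (k + 1) ∧ (p : ℝ)⁻¹ ^ (k + 1) ≤ 1 := by
    intro p hp
    have h1 : (1 : ℝ) ≤ p := by exact_mod_cast (mem_filter.1 hp).2.one_lt.le
    exact ⟨by positivity, pow_le_one₀ (by positivity) (inv_le_one_of_one_le₀ h1)⟩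
  have h1 : 1 - ∑ p ∈ PP y, (p : ℝ)⁻¹ ^ (k + 1) ≤ ∏ p ∈ PP y, (1 - (p : ℝ)⁻¹ ^ (k + 1)) := by
    exact (one_sub_sum_le hp01).1
  have h2 : ∑ p ∈ PP y, (p : ℝ)⁻¹ ^ (k + 1) ≤ 2 * (1 / 2 : ℝ) ^ k := by
    have h3 : ∀ p ∈ PP y, (p : ℝ)⁻¹ ^ (k + 1) ≤ 2 * (1 / 2 : ℝ) ^ k * ((p : ℝ) ^ 2)⁻¹ := by
      intro p hp
      obtain ⟨j, rfl⟩ := Nat.exists_eq_add_of_le' hk
      have h4 : (2 : ℝ) ≤ p := by exact_mod_cast (mem_filter.1 hp).2.two_le
      have h5 : (p : ℝ)⁻¹ ≤ 1 / 2 := by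
        rw [inv_eq_one_div]
        exact one_div_le_one_div_of_le (by norm_num) h4
      have h6 : (p : ℝ)⁻¹ ^ j ≤ (1 / 2) ^ j := pow_le_pow_left₀ (by positivity) h5 j
      calc (p : ℝ)⁻¹ ^ (j + 1 + 1) = (p : ℝ)⁻¹ ^ j * ((p : ℝ) ^ 2)⁻¹ := by
            rw [inv_pow, inv_pow]
            rw [← mul_inv, ← pow_add]
        _ ≤ (1 / 2) ^ j * ((p : ℝ) ^ 2)⁻¹ := mul_le_mul_of_nonneg_right h6 (by positivity)
        _ = _ := by rw [pow_succ]; ring
    refine (Finset.sum_le_sum h3).trans ?_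
    rw [← Finset.mul_sum]
    have h7 : ∑ p ∈ PP y, ((p : ℝ) ^ 2)⁻¹ ≤ 1 := by
      by_cases hy : 1 ≤ y
      · have h8 : ∑ p ∈ PP y, ((p : ℝ) ^ 2)⁻¹ ≤ ∑ p ∈ Ioc 1 y, ((p : ℝ) ^ 2)⁻¹ := by
          apply Finset.sum_le_sum_of_subset_of_nonneg
          · intro p hp
            rw [mem_filter, mem_Icc] at hp
            rw [mem_Ioc]
            exact ⟨hp.2.one_lt, hp.1.2⟩
          · intro p _ _
            positivity
        have h9 := sum_Ioc_inv_sq_le_sub (α := ℝ) (k := 1) (n := y) (by norm_num) hy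
        refine h8.trans (h9.trans ?_)
        have : (0 : ℝ) ≤ (y : ℝ)⁻¹ := by positivity
        push_cast
        rw [inv_one]
        linarith
      · have : PP y = ∅ := by
          rw [Finset.filter_eq_empty_iff]
          intro p hp
          rw [mem_Icc] at hp
          omega
        rw [this, Finset.sum_empty]
        exact zero_le_one
    have h8 : 0 ≤ 2 * (1 / 2 : ℝ) ^ k := by positivity
    nlinarith
  linarith

theorem prod_PP_le (y : ℕ) : ∏ p ∈ PP y, p ≤ 4 ^ y := by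
  refine le_trans (le_of_eq ?_) (primorial_le_four_pow y)
  unfold primorial
  apply Finset.prod_congr _ (fun _ _ => rfl)
  ext p
  simp only [mem_filter, mem_Icc, mem_range]
  constructor
  · rintro ⟨⟨_, h2⟩, h3⟩
    exact ⟨by omega, h3⟩
  · rintro ⟨h1, h2⟩
    exact ⟨⟨h2.one_lt.le, by omega⟩, h2⟩

/-- There are arbitrarily large `n` with `σ(n) - 1 ≥ (e ^ γ - δ) n log log (σ(n) - 1)`. -/
theorem exists_large (δ : ℝ) (hδ : 0 < δ) (N₀ : ℕ) : ∃ n N : ℕ, 1 < n ∧ N₀ ≤ N ∧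
    N + 1 = ∑ e ∈ n.divisors, e ∧ 0 < Real.log (Real.log N) ∧
    (Real.exp Real.eulerMascheroniConstant - δ) * Real.log (Real.log N) * n ≤ N := by
  set G : ℝ := Real.exp Real.eulerMascheroniConstant with hG
  have hG0 : 0 < G := Real.exp_pos _
  -- the exponent `k`
  obtain ⟨k, hk1, hk⟩ : ∃ k : ℕ, 1 ≤ k ∧ 2 * (1 / 2 : ℝ) ^ k * G < δ / 2 := by
    have h1 : Tendsto (fun k : ℕ => 2 * (1 / 2 : ℝ) ^ k * G) atTop (𝓝 (2 * 0 * G)) :=
      ((tendsto_pow_atTop_nhds_zero_of_lt_one (by norm_num) (by norm_num)).const_mul 2).mul_const G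
    rw [mul_zero, zero_mul] at h1
    obtain ⟨k, hk⟩ := ((h1.eventually (gt_mem_nhds (half_pos hδ))).and
      (eventually_ge_atTop 1)).exists
    exact ⟨k, hk.2, hk.1⟩
  set η : ℝ := 2 * (1 / 2 : ℝ) ^ k with hη
  have hη0 : 0 ≤ η := by positivity
  set B : ℝ := Real.log (2 * k * Real.log 4) with hB
  -- the limit
  have hlog : Tendsto (fun y : ℕ => Real.log y) atTop atTop :=
    Real.tendsto_log_atTop.comp tendsto_natCast_atTop_atTop
  have h1 := Pool.Agent.H305R2.mertens_three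
  have h2 : Tendsto (fun y : ℕ => (1 - η) * (MM y / Real.log y) - 1 / Real.log y -
      (G - δ) * (1 + B / Real.log y)) atTop (𝓝 ((1 - η) * G - 0 - (G - δ) * (1 + 0))) := by
    have h3 : Tendsto (fun y : ℕ => 1 / Real.log y) atTop (𝓝 0) := by
      exact hlog.const_div_atTop 1
    have h4 : Tendsto (fun y : ℕ => B / Real.log y) atTop (𝓝 0) := hlog.const_div_atTop B
    exact ((h1.const_mul (1 - η)).sub h3).sub (((tendsto_const_nhds.add h4)).const_mul (G - δ))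
  have h3 : 0 < (1 - η) * G - 0 - (G - δ) * (1 + 0) := by nlinarith
  obtain ⟨y, hy1, hy2, hy3⟩ := ((h2.eventually (lt_mem_nhds h3)).and
    ((eventually_ge_atTop (2 * N₀ + 20)).and (hlog.eventually_ge_atTop 1))).exists
  set Q := ∏ p ∈ PP y, p with hQ
  have hQ0 : 0 < Q := Finset.prod_pos fun p hp => (mem_filter.1 hp).2.pos
  set n := Q ^ k with hn
  have hn0 : 0 < n := pow_pos hQ0 k
  -- `Q` is large: a prime between `y / 2` and `y`
  have hQy : 2 * N₀ + 20 ≤ 2 * Q := by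
    obtain ⟨p, hp, hp1, hp2⟩ := Nat.exists_prime_lt_and_le_two_mul (y / 2) (by omega)
    have h4 : p ∣ Q := Finset.dvd_prod_of_mem _ (by
      rw [mem_filter, mem_Icc]
      exact ⟨⟨hp.one_lt.le, by omega⟩, hp⟩)
    have h5 := Nat.le_of_dvd hQ0 h4
    omega
  have hQn : Q ≤ n := Nat.le_self_pow (by omega) Q
  set s := ∑ e ∈ n.divisors, e with hs
  have hsig := sigma_primorial_pow y k hk1
  rw [← hQ, ← hn, ← hs] at hsig
  have h2Q : 10 ≤ Q := by omega
  -- `2` divides `n`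
  have hs1 : n + n / 2 ≤ s := by
    have h2n : 2 ∣ n := by
      refine dvd_trans ?_ (dvd_pow_self Q (by omega))
      exact Finset.dvd_prod_of_mem _ (by
        rw [mem_filter, mem_Icc]
        exact ⟨⟨by norm_num, by omega⟩, Nat.prime_two⟩)
    have h4 : ({n, n / 2} : Finset ℕ) ⊆ n.divisors := by
      intro e he
      rw [mem_insert, mem_singleton] at he
      rcases he with rfl | rfl
      · exact Nat.mem_divisors.2 ⟨dvd_rfl, hn0.ne'⟩
      · exact Nat.mem_divisors.2 ⟨Nat.div_dvd_of_dvd h2n, hn0.ne'⟩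
    have h5 := Finset.sum_le_sum_of_subset (f := fun e => e) h4
    rwa [Finset.sum_pair (by omega)] at h5
  have hs2 : s ≤ n ^ 2 := by
    calc s ≤ ∑ e ∈ n.divisors, n := Finset.sum_le_sum fun e he =>
          Nat.le_of_dvd hn0 (Nat.dvd_of_mem_divisors he)
      _ = n.divisors.card * n := by rw [Finset.sum_const, smul_eq_mul]
      _ ≤ n * n := Nat.mul_le_mul_right n (Nat.card_divisors_le_self n)
      _ = n ^ 2 := by ring
  refine ⟨n, s - 1, by omega, by omega, by omega, ?_, ?_⟩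
  · have h4 : 10 ≤ s - 1 := by omega
    have h5 : (10 : ℝ) ≤ ((s - 1 : ℕ) : ℝ) := by exact_mod_cast h4
    have h6 : 1 < Real.log ((s - 1 : ℕ) : ℝ) := by
      rw [Real.lt_log_iff_exp_lt (by linarith)]
      have := Real.exp_one_lt_d9
      linarith
    exact Real.log_pos h6
  · have h4 : 10 ≤ s - 1 := by omega
    have h5 : (10 : ℝ) ≤ ((s - 1 : ℕ) : ℝ) := by exact_mod_cast h4
    have h6 : 1 < Real.log ((s - 1 : ℕ) : ℝ) := by
      rw [Real.lt_log_iff_exp_lt (by linarith)]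
      have := Real.exp_one_lt_d9
      linarith
    have hnR : (1 : ℝ) ≤ n := by exact_mod_cast hn0
    by_cases hGδ : G - δ ≤ 0
    · have h7 : 0 ≤ Real.log (Real.log ((s - 1 : ℕ) : ℝ)) := (Real.log_pos h6).le
      have h8 : (G - δ) * Real.log (Real.log ((s - 1 : ℕ) : ℝ)) * n ≤ 0 := by
        have := mul_nonneg h7 (by linarith : (0 : ℝ) ≤ n)
        nlinarith
      linarith
    rw [not_le] at hGδ
    have hk0 : (0 : ℝ) < k := by exact_mod_cast hk1
    have hy0 : (0 : ℝ) < y := by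
      have : 0 < y := by omega
      exact_mod_cast this
    have hl4 : 0 < Real.log 4 := Real.log_pos (by norm_num)
    -- the iterated logarithm
    have h7 : Real.log ((s - 1 : ℕ) : ℝ) ≤ 2 * k * Real.log 4 * y := by
      have h8 : ((s - 1 : ℕ) : ℝ) ≤ (((4 ^ y) ^ k) ^ 2 : ℝ) := by
        have h9 : s - 1 ≤ ((4 ^ y) ^ k) ^ 2 := by
          refine (Nat.sub_le _ _).trans (hs2.trans ?_)
          exact Nat.pow_le_pow_left (Nat.pow_le_pow_left (prod_PP_le y) k) 2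
        exact_mod_cast h9
      have h9 := Real.log_le_log (by linarith) h8
      rw [Real.log_pow, Real.log_pow, Real.log_pow] at h9
      push_cast at h9
      linarith
    have h8 : Real.log (Real.log ((s - 1 : ℕ) : ℝ)) ≤ B + Real.log y := by
      rw [hB, ← Real.log_mul (by positivity) hy0.ne']
      exact Real.log_le_log (by linarith) h7
    have hly : 0 < Real.log y := by linarith
    have h9 : (G - δ) * (Real.log y + B) < (1 - η) * MM y - 1 := by
      have h10 : 0 < ((1 - η) * (MM y / Real.log y) - 1 / Real.log y -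
          (G - δ) * (1 + B / Real.log y)) * Real.log y := mul_pos hy1 hly
      have h11 : ((1 - η) * (MM y / Real.log y) - 1 / Real.log y -
          (G - δ) * (1 + B / Real.log y)) * Real.log y =
          (1 - η) * MM y - 1 - (G - δ) * (Real.log y + B) := by
        field_simp
      linarith
    have hM0 : 0 ≤ MM y := by
      unfold MM
      apply Finset.prod_nonneg
      intro p hp
      have h1 : (1 : ℝ) < p := by exact_mod_cast (mem_filter.1 hp).2.one_lt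
      have := inv_lt_one_of_one_lt₀ h1
      exact (inv_pos.2 (by linarith)).le
    have h10 : (n : ℝ) * ((1 - η) * MM y) ≤ s := by
      rw [hsig]
      apply mul_le_mul_of_nonneg_left _ (by linarith)
      exact mul_le_mul_of_nonneg_right (prod_ge y k hk1) hM0
    have h11 : ((s - 1 : ℕ) : ℝ) = (s : ℝ) - 1 := by
      rw [Nat.cast_sub (by omega)]
      simp
    rw [h11] at h8 ⊢
    have h12 : (G - δ) * Real.log (Real.log ((s : ℝ) - 1)) ≤ (1 - η) * MM y - 1 := by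
      have := mul_le_mul_of_nonneg_left h8 hGδ.le
      linarith
    have h13 : (G - δ) * Real.log (Real.log ((s : ℝ) - 1)) * n ≤ ((1 - η) * MM y - 1) * n :=
      mul_le_mul_of_nonneg_right h12 (by linarith)
    nlinarith

end Pool.Agent.KS6_22.DS
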